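import Pool.Agent.W978.QP.Stm

/-!
QP-CEL (helper737): vectors of one residue class in a cell.
-/

set_option autoImplicit false

namespace Pool.Agent.W737.QP.Cel

open Pool.Agent.W978.QP
open Pool.Agent.W978.QN (nm)

/-- integers at mutual distance at most `L` -/
theorem card_near (F : Finset ℤ) (L : ℕ) (h : ∀ s ∈ F, ∀ t ∈ F, s - t ≤ L) :
    F.card ≤ L + 1 := by
  rcases F.eq_empty_or_nonempty with h0 | h0
  · rw [h0]; simp
  · have hsub : F ⊆ Finset.Icc (F.min' h0) (F.min' h0 + L) := by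
      intro s hs
      rw [Finset.mem_Icc]
      refine ⟨F.min'_le s hs, ?_⟩
      have := h s hs (F.min' h0) (F.min'_mem h0)
      linarith
    refine le_trans (Finset.card_le_card hsub) ?_
    rw [Int.card_Icc]
    have : (F.min' h0 + (L : ℤ) + 1 - F.min' h0) = ((L + 1 : ℕ) : ℤ) := by push_cast; ring
    rw [this, Int.toNat_natCast]

/-- a finite set in the plane, by slices -/
theorem card_slices {α β : Type} [DecidableEq α] [DecidableEq β] (T : Finset α) (f : α → β)
    (H L : ℕ) (h1 : (T.image f).card ≤ H)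
    (h2 : ∀ t ∈ T.image f, (T.filter (fun a => f a = t)).card ≤ L) : T.card ≤ H * L := by
  have h3 : T.card = ∑ t ∈ T.image f, (T.filter (fun a => f a = t)).card :=
    Finset.card_eq_sum_card_image f T
  rw [h3]
  calc ∑ t ∈ T.image f, (T.filter (fun a => f a = t)).card
      ≤ ∑ t ∈ T.image f, L := Finset.sum_le_sum h2
    _ = (T.image f).card * L := by rw [Finset.sum_const, smul_eq_mul]
    _ ≤ H * L := Nat.mul_le_mul_right _ h1

/-- the planar count, `|a|` is the maximum of `|a|` and `|c|` -/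
theorem plane_aux (a b c d D W : ℤ) (hD : 1 ≤ D) (hDe : D = |a * d - b * c|)
    (ha : 2 * |a| ≤ W) (hac : |c| ≤ |a|) (ha1 : 1 ≤ |a|)
    (T : Finset (ℤ × ℤ))
    (hT : ∀ p ∈ T, |a * p.1 + b * p.2| ≤ 2 * D * W ∧ |c * p.1 + d * p.2| ≤ 2 * D * W) :
    (T.card : ℤ) ≤ 45 * D * W ^ 2 := by
  classical
  have hW : 2 ≤ W := by linarith
  obtain ⟨m, hm⟩ : ∃ m : ℤ, m = |a| := ⟨_, rfl⟩
  rw [← hm] at ha hac ha1
  -- the second coordinate
  have h2 : ∀ p ∈ T, |p.2| ≤ 4 * m * W := by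
    intro p hp
    obtain ⟨h3, h4⟩ := hT p hp
    have h5 : (a * d - b * c) * p.2 = a * (c * p.1 + d * p.2) - c * (a * p.1 + b * p.2) := by ring
    have h6 : D * |p.2| ≤ D * (4 * m * W) := by
      rw [hDe, ← abs_mul, h5, ← hDe]
      calc |a * (c * p.1 + d * p.2) - c * (a * p.1 + b * p.2)|
          ≤ |a * (c * p.1 + d * p.2)| + |c * (a * p.1 + b * p.2)| := abs_sub _ _
        _ = m * |c * p.1 + d * p.2| + |c| * |a * p.1 + b * p.2| := by
            rw [abs_mul, abs_mul, hm]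
        _ ≤ m * (2 * D * W) + m * (2 * D * W) := by
            apply add_le_add
            · exact mul_le_mul_of_nonneg_left h4 (by linarith)
            · exact mul_le_mul hac h3 (abs_nonneg _) (by linarith)
        _ = D * (4 * m * W) := by ring
    exact le_of_mul_le_mul_left h6 (by linarith)
  have hmW : 0 ≤ 8 * m * W := by positivity
  obtain ⟨H, hH⟩ : ∃ H : ℕ, (H : ℤ) = 8 * m * W := ⟨(8 * m * W).toNat, Int.toNat_of_nonneg hmW⟩
  have h7 : (T.image (fun p => p.2)).card ≤ H + 1 := by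
    apply card_near
    intro s hs t ht
    rw [Finset.mem_image] at hs ht
    obtain ⟨p, hp, rfl⟩ := hs
    obtain ⟨p', hp', rfl⟩ := ht
    have h8 := h2 p hp
    have h9 := h2 p' hp'
    rw [hH]
    have h10 := le_abs_self p.2
    have h11 := neg_abs_le p'.2
    linarith
  have hV : 0 ≤ 4 * D * W := by positivity
  have hLnn : 0 ≤ 4 * D * W / m := Int.ediv_nonneg hV (by linarith)
  obtain ⟨L, hL⟩ : ∃ L : ℕ, (L : ℤ) = 4 * D * W / m := ⟨_, Int.toNat_of_nonneg hLnn⟩
  have h12 : ∀ t ∈ T.image (fun p : ℤ × ℤ => p.2), (T.filter (fun p => p.2 = t)).card ≤ L + 1 := by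
    intro t _
    have h13 : (T.filter (fun p => p.2 = t)).card =
        ((T.filter (fun p => p.2 = t)).image (fun p => p.1)).card := by
      rw [Finset.card_image_of_injOn]
      intro p hp p' hp' he
      simp only [Finset.coe_filter, Set.mem_ofPred_eq] at hp hp'
      exact Prod.ext he (hp.2.trans hp'.2.symm)
    rw [h13]
    apply card_near
    intro s hs s' hs'
    simp only [Finset.mem_image, Finset.mem_filter] at hs hs'
    obtain ⟨p, ⟨hp, hpt⟩, rfl⟩ := hs
    obtain ⟨p', ⟨hp', hpt'⟩, rfl⟩ := hs'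
    obtain ⟨h14, -⟩ := hT p hp
    obtain ⟨h15, -⟩ := hT p' hp'
    rw [hpt] at h14
    rw [hpt'] at h15
    rw [hL, Int.le_ediv_iff_mul_le (by linarith)]
    have h16 : m * |p.1 - p'.1| ≤ 4 * D * W := by
      rw [hm, ← abs_mul]
      have h17 : a * (p.1 - p'.1) = (a * p.1 + b * t) - (a * p'.1 + b * t) := by ring
      rw [h17]
      calc |(a * p.1 + b * t) - (a * p'.1 + b * t)|
          ≤ |a * p.1 + b * t| + |a * p'.1 + b * t| := abs_sub _ _
        _ ≤ 2 * D * W + 2 * D * W := add_le_add h14 h15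
        _ = 4 * D * W := by ring
    have h18 : (p.1 - p'.1) * m ≤ m * |p.1 - p'.1| := by
      rw [mul_comm]
      exact mul_le_mul_of_nonneg_left (le_abs_self _) (by linarith)
    linarith
  have h19 := card_slices T (fun p => p.2) (H + 1) (L + 1) h7 h12
  have h20 : (T.card : ℤ) ≤ (8 * m * W + 1) * (4 * D * W / m + 1) := by
    rw [← hH, ← hL]
    exact_mod_cast h19
  have h21 : m * (4 * D * W / m) ≤ 4 * D * W := Int.mul_ediv_self_le (by linarith)
  have h22 : m ≤ D * W := by nlinarith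
  have h23 : m * (4 * D * W / m + 1) ≤ 5 * D * W := by linarith
  have h24 : 1 ≤ m * W := by nlinarith
  calc (T.card : ℤ) ≤ (8 * m * W + 1) * (4 * D * W / m + 1) := h20
    _ ≤ (9 * m * W) * (4 * D * W / m + 1) := by
        apply mul_le_mul_of_nonneg_right _ (by linarith)
        linarith
    _ = 9 * W * (m * (4 * D * W / m + 1)) := by ring
    _ ≤ 9 * W * (5 * D * W) := mul_le_mul_of_nonneg_left h23 (by linarith)
    _ = 45 * D * W ^ 2 := by ring

theorem plane_sym (a b c d D W : ℤ) (hD : 1 ≤ D) (hDe : D = |a * d - b * c|)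
    (ha : 2 * |a| ≤ W) (hc : 2 * |c| ≤ W)
    (T : Finset (ℤ × ℤ))
    (hT : ∀ p ∈ T, |a * p.1 + b * p.2| ≤ 2 * D * W ∧ |c * p.1 + d * p.2| ≤ 2 * D * W) :
    (T.card : ℤ) ≤ 45 * D * W ^ 2 := by
  have hne : a ≠ 0 ∨ c ≠ 0 := by
    by_contra hcon
    push Not at hcon
    rw [hcon.1, hcon.2] at hDe
    simp at hDe
    omega
  rcases le_total |c| |a| with h | h
  · refine plane_aux a b c d D W hD hDe ha h ?_ T hT
    rcases hne with h1 | h1
    · exact Int.one_le_abs h1
    · exact le_trans (Int.one_le_abs h1) h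
  · refine plane_aux c d a b D W hD ?_ hc h ?_ T (fun p hp => (hT p hp).symm)
    · rw [hDe, ← abs_neg]
      congr 1
      ring
    · rcases hne with h1 | h1
      · exact le_trans (Int.one_le_abs h1) h
      · exact Int.one_le_abs h1

/-- the planar count -/
theorem plane (a b c d D W : ℤ) (hD : 1 ≤ D) (hDe : D = |a * d - b * c|)
    (ha : 2 * |a| ≤ W) (hb : 2 * |b| ≤ W) (hc : 2 * |c| ≤ W) (hd : 2 * |d| ≤ W)
    (T : Finset (ℤ × ℤ))
    (hT : ∀ p ∈ T, |a * p.1 + b * p.2| ≤ W ∧ |c * p.1 + d * p.2| ≤ W) :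
    (T.card : ℤ) * D ≤ 45 * W ^ 2 := by
  classical
  let φ : (ℤ × ℤ) × (ℤ × ℤ) → ℤ × ℤ := fun z => (D * z.1.1 + z.2.1, D * z.1.2 + z.2.2)
  let B : Finset (ℤ × ℤ) := (Finset.Ico 0 D) ×ˢ (Finset.Ico 0 D)
  have hB : (B.card : ℤ) = D * D := by
    simp only [B, Finset.card_product, Int.card_Ico, sub_zero]
    push_cast
    rw [Int.toNat_of_nonneg (by linarith)]
  have hinj : Set.InjOn φ ((T ×ˢ B : Finset ((ℤ × ℤ) × (ℤ × ℤ))) : Set ((ℤ × ℤ) × (ℤ × ℤ))) := by
    rintro ⟨⟨p1, p2⟩, ⟨e1, e2⟩⟩ hz ⟨⟨q1, q2⟩, ⟨f1, f2⟩⟩ hz' he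
    simp only [Finset.coe_product, Set.mem_prod, Finset.mem_coe, B, Finset.mem_product,
      Finset.mem_Ico] at hz hz'
    simp only [φ, Prod.mk.injEq] at he
    obtain ⟨h1, h2⟩ := he
    obtain ⟨-, ⟨⟨h3, h4⟩, h5, h6⟩⟩ := hz
    obtain ⟨-, ⟨⟨h7, h8⟩, h9, h10⟩⟩ := hz'
    have key : ∀ s t u v : ℤ, D * s + u = D * t + v → 0 ≤ u → u < D → 0 ≤ v → v < D →
        s = t ∧ u = v := by
      intro s t u v h hu0 hu hv0 hv
      have hst : s = t := by
        by_contra hne
        rcases lt_or_gt_of_ne hne with hlt | hlt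
        · have : D * (t - s) ≥ D * 1 := mul_le_mul_of_nonneg_left (by omega) (by linarith)
          nlinarith
        · have : D * (s - t) ≥ D * 1 := mul_le_mul_of_nonneg_left (by omega) (by linarith)
          nlinarith
      refine ⟨hst, ?_⟩
      rw [hst] at h
      linarith
    obtain ⟨r1, r2⟩ := key _ _ _ _ h1 h3 h4 h7 h8
    obtain ⟨r3, r4⟩ := key _ _ _ _ h2 h5 h6 h9 h10
    rw [r1, r2, r3, r4]
  have hbound : ∀ (s t p1 p2 e1 e2 : ℤ), 2 * |s| ≤ W → 2 * |t| ≤ W → |s * p1 + t * p2| ≤ W →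
      0 ≤ e1 → e1 < D → 0 ≤ e2 → e2 < D →
      |s * (D * p1 + e1) + t * (D * p2 + e2)| ≤ 2 * D * W := by
    intro s t p1 p2 e1 e2 hs ht hp h1 h2 h3 h4
    have h5 : s * (D * p1 + e1) + t * (D * p2 + e2) = D * (s * p1 + t * p2) + (s * e1 + t * e2) := by
      ring
    rw [h5]
    have hW0 : 0 ≤ W := le_trans (abs_nonneg _) hp
    have h6 : |s * e1| ≤ |s| * D := by
      rw [abs_mul]
      exact mul_le_mul_of_nonneg_left (by rw [abs_of_nonneg h1]; linarith) (abs_nonneg _)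
    have h7 : |t * e2| ≤ |t| * D := by
      rw [abs_mul]
      exact mul_le_mul_of_nonneg_left (by rw [abs_of_nonneg h3]; linarith) (abs_nonneg _)
    calc |D * (s * p1 + t * p2) + (s * e1 + t * e2)|
        ≤ |D * (s * p1 + t * p2)| + |s * e1 + t * e2| := abs_add_le _ _
      _ ≤ D * W + (|s| * D + |t| * D) := by
          apply add_le_add
          · rw [abs_mul, abs_of_nonneg (by linarith : (0 : ℤ) ≤ D)]
            exact mul_le_mul_of_nonneg_left hp (by linarith)
          · exact le_trans (abs_add_le _ _) (add_le_add h6 h7)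
      _ ≤ D * W + W * D := by nlinarith
      _ = 2 * D * W := by ring
  have hT' : ∀ p ∈ (T ×ˢ B).image φ,
      |a * p.1 + b * p.2| ≤ 2 * D * W ∧ |c * p.1 + d * p.2| ≤ 2 * D * W := by
    intro p hp
    rw [Finset.mem_image] at hp
    obtain ⟨⟨⟨p1, p2⟩, ⟨e1, e2⟩⟩, hz, rfl⟩ := hp
    simp only [Finset.mem_product, B, Finset.mem_Ico] at hz
    obtain ⟨hpT, ⟨⟨h3, h4⟩, h5, h6⟩⟩ := hz
    obtain ⟨h7, h8⟩ := hT _ hpT
    exact ⟨hbound a b p1 p2 e1 e2 ha hb h7 h3 h4 h5 h6, hbound c d p1 p2 e1 e2 hc hd h8 h3 h4 h5 h6⟩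
  have h1 := plane_sym a b c d D W hD hDe ha hc _ hT'
  rw [Finset.card_image_of_injOn hinj, Finset.card_product] at h1
  push_cast at h1
  rw [hB] at h1
  have h2 : D * ((T.card : ℤ) * D) ≤ D * (45 * W ^ 2) := by linarith
  exact le_of_mul_le_mul_left h2 (by linarith)

/-- the count for a given triple of indices -/
theorem space (i j e : Fin 3) (hdp : ∀ u v : Fin 3 → ℤ, dp u v = u i * v i + u j * v j + u e * v e)
    (hall : ∀ u v : Fin 3 → ℤ, u i = v i → u j = v j → u e = v e → u = v)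
    (x y : Fin 3 → ℤ) (g Z Y : ℕ) (hg : 1 ≤ g)
    (D : ℤ) (hD : 1 ≤ D) (hDe : D = |x i * y j - x j * y i|)
    (hx : ∀ k, g * |x k| ≤ Y) (hy : ∀ k, g * |y k| ≤ Y) (S : Finset (Fin 3 → ℤ))
    (hS : ∀ r ∈ S, |r e| ≤ Z ∧ |dp x r| ≤ Y ∧ |dp y r| ≤ Y)
    (hc : ∀ r ∈ S, ∀ r' ∈ S, ∀ k, (g : ℤ) ∣ r k - r' k) :
    (S.card : ℤ) * D ≤ (2 * Z / g + 1) * (45 * (2 * Y / g) ^ 2) := by
  classical
  have hg0 : (0 : ℤ) < g := by exact_mod_cast hg
  obtain ⟨W, hW⟩ : ∃ W : ℤ, W = 2 * Y / g := ⟨_, rfl⟩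
  have hle : ∀ t : ℤ, (g : ℤ) * t ≤ 2 * Y → t ≤ W := by
    intro t ht
    rw [hW, Int.le_ediv_iff_mul_le hg0]
    linarith
  have hsmall : ∀ u : Fin 3 → ℤ, (∀ k, (g : ℤ) * |u k| ≤ Y) → ∀ k, 2 * |u k| ≤ W := by
    intro u hu k
    apply hle
    have := hu k
    linarith
  have hxs := hsmall x hx
  have hys := hsmall y hy
  have hL0 : (0 : ℤ) ≤ 2 * Z / g := Int.ediv_nonneg (by positivity) (by positivity)
  obtain ⟨H, hH⟩ : ∃ H : ℕ, (H : ℤ) = 2 * Z / g := ⟨_, Int.toNat_of_nonneg hL0⟩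
  have hP0 : (0 : ℤ) ≤ 45 * W ^ 2 / D := Int.ediv_nonneg (by positivity) (by linarith)
  obtain ⟨P, hP⟩ : ∃ P : ℕ, (P : ℤ) = 45 * W ^ 2 / D := ⟨_, Int.toNat_of_nonneg hP0⟩
  have h1 : (S.image (fun r => r e)).card ≤ H + 1 := by
    rcases S.eq_empty_or_nonempty with h0 | ⟨r0, hr0⟩
    · rw [h0]; simp
    · have h2 : (S.image (fun r => r e)).card =
          ((S.image (fun r => r e)).image (fun t => (t - r0 e) / g)).card := by
        rw [Finset.card_image_of_injOn (s := S.image (fun r => r e))]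
        intro s hs t ht he
        simp only [Finset.coe_image, Set.mem_image, Finset.mem_coe] at hs ht
        obtain ⟨r, hr, rfl⟩ := hs
        obtain ⟨r', hr', rfl⟩ := ht
        obtain ⟨u, hu⟩ := hc r hr r0 hr0 e
        obtain ⟨v, hv⟩ := hc r' hr' r0 hr0 e
        simp only at he
        rw [hu, hv, Int.mul_ediv_cancel_left _ hg0.ne', Int.mul_ediv_cancel_left _ hg0.ne'] at he
        rw [he] at hu
        linarith
      rw [h2]
      apply card_near
      intro s hs t ht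
      simp only [Finset.mem_image] at hs ht
      obtain ⟨_, ⟨r, hr, rfl⟩, rfl⟩ := hs
      obtain ⟨_, ⟨r', hr', rfl⟩, rfl⟩ := ht
      obtain ⟨u, hu⟩ := hc r hr r0 hr0 e
      obtain ⟨v, hv⟩ := hc r' hr' r0 hr0 e
      rw [hu, hv, Int.mul_ediv_cancel_left _ hg0.ne', Int.mul_ediv_cancel_left _ hg0.ne', hH,
        Int.le_ediv_iff_mul_le hg0]
      have h3 := (hS r hr).1
      have h4 := (hS r' hr').1
      have h5 := le_abs_self (r e)
      have h6 := neg_abs_le (r' e)
      have h7 : (u - v) * g = r e - r' e := by linarith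
      rw [h7]
      linarith
  have h2 : ∀ t ∈ S.image (fun r => r e), (S.filter (fun r => r e = t)).card ≤ P := by
    intro t ht
    rw [Finset.mem_image] at ht
    obtain ⟨r0, hr0, hr0t⟩ := ht
    let ψ : (Fin 3 → ℤ) → ℤ × ℤ := fun r => ((r i - r0 i) / g, (r j - r0 j) / g)
    have hinj : Set.InjOn ψ ((S.filter (fun r => r e = t) : Finset (Fin 3 → ℤ)) :
        Set (Fin 3 → ℤ)) := by
      intro r hr r' hr' he
      simp only [Finset.coe_filter, Set.mem_ofPred_eq] at hr hr'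
      simp only [ψ, Prod.mk.injEq] at he
      obtain ⟨u, hu⟩ := hc r hr.1 r0 hr0 i
      obtain ⟨v, hv⟩ := hc r' hr'.1 r0 hr0 i
      obtain ⟨u', hu'⟩ := hc r hr.1 r0 hr0 j
      obtain ⟨v', hv'⟩ := hc r' hr'.1 r0 hr0 j
      obtain ⟨he1, he2⟩ := he
      rw [hu, hv, Int.mul_ediv_cancel_left _ hg0.ne', Int.mul_ediv_cancel_left _ hg0.ne'] at he1
      rw [hu', hv', Int.mul_ediv_cancel_left _ hg0.ne', Int.mul_ediv_cancel_left _ hg0.ne'] at he2
      apply hall
      · rw [he1] at hu; linarith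
      · rw [he2] at hu'; linarith
      · rw [hr.2, hr'.2]
    have hkey : ∀ z : Fin 3 → ℤ, (∀ r ∈ S, |dp z r| ≤ Y) → ∀ r ∈ S.filter (fun r => r e = t),
        |z i * (ψ r).1 + z j * (ψ r).2| ≤ W := by
      intro z hz r hr
      rw [Finset.mem_filter] at hr
      obtain ⟨u, hu⟩ := hc r hr.1 r0 hr0 i
      obtain ⟨u', hu'⟩ := hc r hr.1 r0 hr0 j
      simp only [ψ]
      rw [hu, hu', Int.mul_ediv_cancel_left _ hg0.ne', Int.mul_ediv_cancel_left _ hg0.ne']
      apply hle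
      have h3 := hz r hr.1
      have h4 := hz r0 hr0
      have h5 : (g : ℤ) * |z i * u + z j * u'| = |dp z r - dp z r0| := by
        rw [← abs_of_pos hg0, ← abs_mul]
        congr 1
        rw [hdp z r, hdp z r0, hr.2, hr0t]
        have h6 : r i = r0 i + g * u := by linarith
        have h7 : r j = r0 j + g * u' := by linarith
        rw [h6, h7]
        ring
      rw [h5]
      calc |dp z r - dp z r0| ≤ |dp z r| + |dp z r0| := abs_sub _ _
        _ ≤ Y + Y := add_le_add h3 h4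
        _ = 2 * Y := by ring
    have h3 := plane (x i) (x j) (y i) (y j) D W hD hDe (hxs i) (hxs j) (hys i) (hys j)
      ((S.filter (fun r => r e = t)).image ψ) (by
        intro p hp
        rw [Finset.mem_image] at hp
        obtain ⟨r, hr, rfl⟩ := hp
        exact ⟨hkey x (fun r hr => (hS r hr).2.1) r hr, hkey y (fun r hr => (hS r hr).2.2) r hr⟩)
    rw [Finset.card_image_of_injOn hinj] at h3
    have h4 : ((S.filter (fun r => r e = t)).card : ℤ) ≤ P := by
      rw [hP, Int.le_ediv_iff_mul_le (by linarith)]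
      exact h3
    exact_mod_cast h4
  have h3 := card_slices S (fun r => r e) (H + 1) P h1 h2
  have h4 : (S.card : ℤ) ≤ (2 * Z / g + 1) * (45 * W ^ 2 / D) := by
    rw [← hH, ← hP]
    exact_mod_cast h3
  have h5 : 45 * W ^ 2 / D * D ≤ 45 * W ^ 2 := Int.ediv_mul_le _ (by linarith)
  calc (S.card : ℤ) * D ≤ (2 * Z / g + 1) * (45 * W ^ 2 / D) * D :=
        mul_le_mul_of_nonneg_right h4 (by linarith)
    _ = (2 * Z / g + 1) * (45 * W ^ 2 / D * D) := by ring
    _ ≤ (2 * Z / g + 1) * (45 * W ^ 2) := mul_le_mul_of_nonneg_left h5 (by linarith)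
    _ = (2 * Z / g + 1) * (45 * (2 * Y / g) ^ 2) := by rw [hW]

theorem main : S_CEL := by
  refine ⟨540, by norm_num, ?_⟩
  intro x y g Z Y hg hgZ hcr hx hy S hS hc
  have hnm : ∀ r : Fin 3 → ℤ, ∀ k, |r k| ≤ nm r := by
    intro r k
    unfold Pool.Agent.W978.QN.nm
    fin_cases k
    · exact le_trans (le_max_left _ _) (le_max_left _ _)
    · exact le_trans (le_max_right _ _) (le_max_left _ _)
    · exact le_max_right _ _
  have hD : 1 ≤ nm (cr x y) := by
    by_contra hlt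
    apply hcr
    funext k
    have := hnm (cr x y) k
    have h2 := abs_nonneg (cr x y k)
    have h3 : |cr x y k| = 0 := by omega
    exact abs_eq_zero.1 h3
  have hkey : (S.card : ℤ) * nm (cr x y) ≤ (2 * Z / g + 1) * (45 * (2 * Y / g) ^ 2) := by
    have hcase : nm (cr x y) = |cr x y 0| ∨ nm (cr x y) = |cr x y 1| ∨
        nm (cr x y) = |cr x y 2| := by
      unfold Pool.Agent.W978.QN.nm
      rcases max_choice (max |cr x y 0| |cr x y 1|) |cr x y 2| with h | h
      · rcases max_choice |cr x y 0| |cr x y 1| with h' | h'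
        · left; rw [h, h']
        · right; left; rw [h, h']
      · right; right; exact h
    rcases hcase with h | h | h
    · refine space 1 2 0 ?_ ?_ x y g Z Y hg _ hD ?_ hx hy S ?_ hc
      · intro u v
        unfold dp
        rw [Fin.sum_univ_three]
        ring
      · intro u v h1 h2 h3
        funext k
        fin_cases k
        · exact h3
        · exact h1
        · exact h2
      · rw [h]
        rfl
      · intro r hr
        obtain ⟨h1, h2, h3⟩ := hS r hr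
        exact ⟨le_trans (hnm r 0) h1, h2, h3⟩
    · refine space 2 0 1 ?_ ?_ x y g Z Y hg _ hD ?_ hx hy S ?_ hc
      · intro u v
        unfold dp
        rw [Fin.sum_univ_three]
        ring
      · intro u v h1 h2 h3
        funext k
        fin_cases k
        · exact h2
        · exact h3
        · exact h1
      · rw [h]
        rfl
      · intro r hr
        obtain ⟨h1, h2, h3⟩ := hS r hr
        exact ⟨le_trans (hnm r 1) h1, h2, h3⟩
    · refine space 0 1 2 ?_ ?_ x y g Z Y hg _ hD ?_ hx hy S ?_ hc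
      · intro u v
        unfold dp
        rw [Fin.sum_univ_three]
      · intro u v h1 h2 h3
        funext k
        fin_cases k
        · exact h1
        · exact h2
        · exact h3
      · rw [h]
        rfl
      · intro r hr
        obtain ⟨h1, h2, h3⟩ := hS r hr
        exact ⟨le_trans (hnm r 2) h1, h2, h3⟩
  have hgR : (0 : ℝ) < g := by exact_mod_cast hg
  have hDR : (0 : ℝ) < (nm (cr x y) : ℝ) := by exact_mod_cast (by omega : (0 : ℤ) < nm (cr x y))
  have hkR : (S.card : ℝ) * (nm (cr x y) : ℝ) ≤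
      (((2 * Z / g : ℤ) : ℝ) + 1) * (45 * ((2 * Y / g : ℤ) : ℝ) ^ 2) := by
    exact_mod_cast hkey
  have hA : ∀ n : ℕ, ((2 * n / g : ℤ) : ℝ) ≤ 2 * (n : ℝ) / g := by
    intro n
    rw [le_div_iff₀ hgR]
    have h1 : (2 * (n : ℤ) / g) * g ≤ 2 * n := Int.ediv_mul_le _ (by omega)
    exact_mod_cast h1
  have hA0 : ∀ n : ℕ, (0 : ℝ) ≤ ((2 * n / g : ℤ) : ℝ) := by
    intro n
    have h1 : (0 : ℤ) ≤ 2 * n / g := Int.ediv_nonneg (by positivity) (by positivity)
    exact_mod_cast h1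
  have h1 : ((2 * Z / g : ℤ) : ℝ) + 1 ≤ 3 * (Z : ℝ) / g := by
    have h2 := hA Z
    have h3 : (1 : ℝ) ≤ (Z : ℝ) / g := by
      rw [le_div_iff₀ hgR, one_mul]
      exact_mod_cast hgZ
    have h4 : 3 * (Z : ℝ) / g = 2 * (Z : ℝ) / g + (Z : ℝ) / g := by ring
    rw [h4]
    linarith
  have h2 : ((2 * Y / g : ℤ) : ℝ) ^ 2 ≤ (2 * (Y : ℝ) / g) ^ 2 :=
    pow_le_pow_left₀ (hA0 Y) (hA Y) 2
  rw [le_div_iff₀ (by positivity)]
  have h3 : (S.card : ℝ) * (nm (cr x y) : ℝ) ≤ 3 * (Z : ℝ) / g * (45 * (2 * (Y : ℝ) / g) ^ 2) := by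
    refine le_trans hkR ?_
    apply mul_le_mul h1 _ _ (by positivity)
    · linarith
    · positivity
  calc (S.card : ℝ) * ((g : ℝ) ^ 3 * (nm (cr x y) : ℝ))
      = (g : ℝ) ^ 3 * ((S.card : ℝ) * (nm (cr x y) : ℝ)) := by ring
    _ ≤ (g : ℝ) ^ 3 * (3 * (Z : ℝ) / g * (45 * (2 * (Y : ℝ) / g) ^ 2)) :=
        mul_le_mul_of_nonneg_left h3 (by positivity)
    _ = 540 * (Z : ℝ) * (Y : ℝ) ^ 2 := by
        field_simp
        ring

end Pool.Agent.W737.QP.Cel
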